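import Pool.Agent.H22.Tilf3
import Pool.Agent.H22.Tilf4

set_option autoImplicit false

namespace Pool.Agent.Results.MP_eb9c50_an.BohrLocal

open Pool.Agent.H22.Tilf

theorem result :
    ¬ AutoCont Set.univ ∧
    (∀ (E : Set ℤ) (m : ℕ) (a : Fin m → UnitAddCircle) (δ : ℝ), 0 < δ →
      (AutoCont E ↔ AutoCont (E ∩ {k | ∀ i, ‖k • a i‖ < δ})) ∧
      ((E ∩ {k | ∀ i, ‖k • a i‖ < δ}).Finite → AutoCont E) ∧
      ({k | ∀ i, ‖k • a i‖ < δ} ⊆ E → ¬ AutoCont E)) ∧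
    (∀ E : Set ℤ, (∀ N : ℕ, ∃ b d : ℤ, d ≠ 0 ∧ ∀ j : ℕ, j < N → b + d * j ∈ E) → ¬ Sidon E) ∧
    (AutoCont {k | Odd k} ∧ ¬ Sidon {k | Odd k}) := by
  have h1 : ∀ (E : Set ℤ) (m : ℕ) (a : Fin m → UnitAddCircle) (δ : ℝ), 0 < δ →
      (E ∩ {k | ∀ i, ‖k • a i‖ < δ}).Finite → AutoCont E :=
    fun E m a δ hδ h => (loc m E a hδ).2 (fin_auto h)
  refine ⟨not_auto_univ, fun E m a δ hδ => ⟨loc m E a hδ, h1 E m a δ hδ, fun h hE => ?_⟩,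
    fun E => not_sidon, ?_, not_sidon fun N => ⟨1, 2, two_ne_zero, fun j _ => ⟨j, by ring⟩⟩⟩
  · have h2 := (loc m E a hδ).1 hE
    rw [Set.inter_eq_right.2 h, ← Set.univ_inter {k : ℤ | ∀ i, ‖k • a i‖ < δ}] at h2
    exact not_auto_univ ((loc m Set.univ a hδ).2 h2)
  · refine h1 _ 1 (fun _ => ((1 / 2 : ℝ) : UnitAddCircle)) (1 / 2) (by norm_num)
      (Set.finite_empty.subset ?_)
    rintro k ⟨⟨j, rfl⟩, hk⟩
    have h3 := hk 0
    have e : (2 * j + 1) • ((1 / 2 : ℝ) : UnitAddCircle) = ((1 / 2 : ℝ) : UnitAddCircle) := by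
      rw [add_smul, one_smul, add_eq_right, ← AddCircle.coe_zsmul, AddCircle.coe_eq_zero_iff]
      exact ⟨j, by simp only [zsmul_eq_mul]; push_cast; ring⟩
    rw [e, AddCircle.norm_half_period_eq] at h3
    norm_num at h3

end Pool.Agent.Results.MP_eb9c50_an.BohrLocal
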